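import Pool.Agent.Lib_MP_2711ad_nt.Main

/-!
# Many `n` with many primes `p < n` such that `Q(n - p)` is prime
-/

set_option autoImplicit false

namespace Pool.Agent.Results.MP_2711ad_nt.ManyN

open Finset Filter

/-- `Q(x)`: the number of squarefree integers in `{1, ..., x}`. -/
def Q (x : ℕ) : ℕ := ((Icc 1 x).filter Squarefree).card

open Classical in
/-- There is `c > 0` such that for all large `N` at least `c N / log log log N` of the integers
`4 ≤ n ≤ N` have at least `c N / (log N)^2` primes `p < n` with `Q(n - p)` prime. -/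
theorem result : ∃ c : ℝ, 0 < c ∧ ∀ᶠ N : ℕ in atTop,
    c * N / Real.log (Real.log (Real.log N)) ≤
      (((Icc 4 N).filter (fun n => c * N / (Real.log N) ^ 2 ≤
        (((range n).filter (fun p => p.Prime ∧ (Q (n - p)).Prime)).card : ℝ))).card : ℝ) :=
  Pool.Agent.MP2711.main

end Pool.Agent.Results.MP_2711ad_nt.ManyN
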